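import Pool.Agent.H.MP_df74ac_an.D

namespace Pool.Agent.H.MP_4cf087_an

open Set Filter Topology Submodule Pool.Agent.H.MP_df74ac_an

variable {X : Type} [NormedAddCommGroup X] [NormedSpace ℝ X] {C : Set (X →L[ℝ] ℝ)}

lemma exT [CompleteSpace X] [TopologicalSpace.SeparableSpace X] : ∃ (γ : ℕ → X) (T : (X →L[ℝ] ℝ) → X),
    (∀ x, x ∈ (span ℝ (range γ)).topologicalClosure) ∧ (∀ f : X →L[ℝ] ℝ, 0 ≤ f (T f)) ∧
    (∀ f : X →L[ℝ] ℝ, f (T f) = 0 → f = 0) ∧ (∀ f g : X →L[ℝ] ℝ, f (T g) = g (T f)) ∧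
    (∀ f : X →L[ℝ] ℝ, f (T f) ≤ 2 * ‖f‖ ^ 2) ∧
    ∀ (ι : Type) (l : Filter ι) (g : ι → X →L[ℝ] ℝ) (z : X →L[ℝ] ℝ) (M : ℝ), (∀ᶠ i in l, ‖g i‖ ≤ M) →
      PT l g z → Tendsto (fun i => g i (T (g i))) l (𝓝 (z (T z))) := by
  obtain ⟨d, hd⟩ := TopologicalSpace.exists_dense_seq X
  obtain ⟨γ, hγ⟩ : ∃ γ : ℕ → X, ∀ j, γ j = (‖d j‖ + 1)⁻¹ • d j := ⟨_, fun _ => rfl⟩
  have g1 : ∀ j, ‖γ j‖ ≤ 1 := fun j => by
    rw [hγ, norm_smul, norm_inv, Real.norm_of_nonneg (by positivity), inv_mul_le_iff₀ (by positivity)]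
    linarith
  have g2 : ∀ x, x ∈ (span ℝ (range γ)).topologicalClosure := fun x => closure_mono
    (range_subset_iff.2 fun j => (smul_mem_iff _ (inv_ne_zero (by positivity : ‖d j‖ + 1 ≠ 0))).1
      (hγ j ▸ subset_span (mem_range_self j))) (hd x)
  have b : ∀ (f : X →L[ℝ] ℝ) j, |f (γ j)| ≤ ‖f‖ := fun f j => f.unit_le_opNorm _ (g1 j)
  have s : ∀ f : X →L[ℝ] ℝ, Summable fun j => ((1 / 2 : ℝ) ^ j * f (γ j)) • γ j := fun f =>
    .of_norm_bounded (summable_geometric_two.mul_right ‖f‖) fun j => by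
      rw [norm_smul, norm_mul, Real.norm_of_nonneg (by positivity)]
      exact (mul_le_of_le_one_right (by positivity) (g1 j)).trans (mul_le_mul_of_nonneg_left (b f j)
        (by positivity))
  have e : ∀ f g : X →L[ℝ] ℝ, HasSum (fun j => (1 / 2 : ℝ) ^ j * (f (γ j) * g (γ j)))
      (g (∑' j, ((1 / 2 : ℝ) ^ j * f (γ j)) • γ j)) := fun f g => by
    simpa [mul_assoc] using g.hasSum (s f).hasSum
  have b2 : ∀ (f : X →L[ℝ] ℝ) (M : ℝ), ‖f‖ ≤ M → ∀ j, ‖(1 / 2 : ℝ) ^ j * (f (γ j) * f (γ j))‖ ≤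
      (1 / 2 : ℝ) ^ j * M ^ 2 := fun f M h j => by
    rw [norm_mul, norm_mul, Real.norm_of_nonneg (by positivity), ← sq]
    exact mul_le_mul_of_nonneg_left (pow_le_pow_left₀ (norm_nonneg _) ((b f j).trans h) 2)
      (by positivity)
  refine ⟨γ, fun f => ∑' j, ((1 / 2 : ℝ) ^ j * f (γ j)) • γ j, g2, fun f => (e f f).nonneg fun j =>
    mul_nonneg (by positivity) (mul_self_nonneg _), fun f h => ContinuousLinearMap.ext fun x =>
      vcl (forall_mem_range.2 fun j => ?_) (g2 x), fun f g => (e g f).unique (by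
        simpa only [mul_comm (g _)] using e f g), fun f => (le_abs_self _).trans
      ((e f f).norm_le_of_bounded (hasSum_geometric_two.mul_right _) (b2 f _ le_rfl)),
    fun ι l g z M hM k => ?_⟩
  · have := congrFun ((hasSum_zero_iff_of_nonneg fun j => mul_nonneg (by positivity)
      (mul_self_nonneg (f (γ j)))).1 (h ▸ e f f)) j
    simpa using this
  · simp only [← (e _ _).tsum_eq]
    exact tendsto_tsum_of_dominated_convergence (summable_geometric_two.mul_right (M ^ 2))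
      (fun j => ((k _).mul (k _)).const_mul _) (hM.mono fun i hi => b2 _ M hi)

lemma build [CompleteSpace X] [TopologicalSpace.SeparableSpace X] (ne : C.Nonempty) (cv : Convex ℝ C)
    (cp : WS C) (hC : ∀ c ∈ C, (∃ x ≠ 0, ∀ g ∈ C, g x ≤ c x) → ∃ φ : (X →L[ℝ] ℝ) →L[ℝ] ℝ,
      ¬ ContinuousWithinAt (X := WeakDual ℝ X) φ C c) : ∃ N c M, Nm N c M ∧ ∀ x, N x = 1 →
      ∀ L : X →L[ℝ] ℝ, (∀ v, HasDerivAt (fun t : ℝ => N (x + t • v)) (L v) 0) →
        ∃ f : ℕ → X →L[ℝ] ℝ, (∀ n, IsLUB (f n '' {v | N v ≤ 1}) 1) ∧ Tendsto (fun n => f n x) atTop (𝓝 1) ∧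
          ∃ φ : (X →L[ℝ] ℝ) →L[ℝ] ℝ, ¬ Tendsto (fun n => φ (f n)) atTop (𝓝 (φ L)) := by
  obtain ⟨γ, T, t1, t2, t3, t4, t5, t6⟩ := exT (X := X)
  have ts : ∀ (t : ℝ) (f : X →L[ℝ] ℝ), (t • f) (T (t • f)) = t ^ 2 * f (T f) := fun t f => by
    rw [smul_apply, t4 f, smul_apply]
    simp only [smul_eq_mul]
    ring
  have ta : ∀ f g : X →L[ℝ] ℝ, (f + g) (T (f + g)) = f (T f) + 2 * g (T f) + g (T g) := fun f g => by
    rw [add_apply, t4 f, t4 g, add_apply, add_apply, t4 f g]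
    ring
  obtain ⟨D, hD⟩ : ∃ D : Set (X →L[ℝ] ℝ), ∀ f, f ∈ D ↔ ∃ s, 0 ≤ s ∧ In C s f ∧ s ^ 2 + f (T f) ≤ 1 :=
    ⟨_, fun _ => Iff.rfl⟩
  have s1 : ∀ s (f : X →L[ℝ] ℝ), 0 ≤ s → s ^ 2 + f (T f) ≤ 1 → s ≤ 1 := fun s f a b => by
    nlinarith [t2 f]
  have sc : ∀ s f t, 0 ≤ s → In C s f → 0 ≤ t → t ^ 2 * (s ^ 2 + f (T f)) ≤ 1 → t • f ∈ D := by
    rintro s f t a ⟨c, c1, d, d1, b, b1, e⟩ ht k
    exact (hD _).2 ⟨t * s, by positivity, ⟨c, c1, d, d1, b, b1, by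
      simp only [e, smul_add, smul_sub, smul_smul]⟩, by rw [ts]; nlinarith⟩
  have ng : ∀ f ∈ D, -f ∈ D := fun f hf => by
    obtain ⟨s, a, ⟨c, c1, d, d1, b, b1, e⟩, k⟩ := (hD f).1 hf
    exact (hD _).2 ⟨s, a, ⟨d, d1, c, c1, -b, by simpa using b1, by rw [e, smul_neg]; abel⟩, by
      rw [← neg_one_smul ℝ f, ts]; linarith⟩
  obtain ⟨B, B0, hB⟩ := cp.bdd
  have ib : ∀ s f, 0 ≤ s → s ≤ 1 → In C s f → ‖f‖ ≤ B + B + 1 := by
    rintro s f a a1 ⟨c, c1, d, d1, b, b1, rfl⟩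
    rw [show s • c - s • d + s • b = s • (c - d + b) by module, norm_smul, Real.norm_of_nonneg a]
    exact (mul_le_of_le_one_left (norm_nonneg _) a1).trans ((norm_add_le _ _).trans (add_le_add
      ((norm_sub_le _ _).trans (add_le_add (hB c c1) (hB d d1))) (mem_closedBall_zero_iff.1 b1)))
  have hM : ∀ f ∈ D, ‖f‖ ≤ B + B + 1 := fun f hf => by
    obtain ⟨s, a, i, k⟩ := (hD f).1 hf
    exact ib s f a (s1 s f a k) i
  have dp : WS D := ws_of fun V hV => by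
    choose! s a c c1 d d1 b b1 e k using fun f (hf : f ∈ D) => show ∃ s, 0 ≤ s ∧ ∃ c ∈ C, ∃ d ∈ C,
      ∃ b ∈ Metric.closedBall (0 : X →L[ℝ] ℝ) 1, f = s • c - s • d + s • b ∧ s ^ 2 + f (T f) ≤ 1 from by
        obtain ⟨s, a, ⟨c, c1, d, d1, b, b1, e⟩, k⟩ := (hD f).1 hf
        exact ⟨s, a, c, c1, d, d1, b, b1, e, k⟩
    have hV : ∀ᶠ f in V, f ∈ D := hV
    obtain ⟨s', -, s2⟩ := rlim V (a := s) (hV.mono fun f hf => (abs_of_nonneg (a f hf)).trans_le
      (s1 _ _ (a f hf) (k f hf)))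
    obtain ⟨c', c2, c3⟩ := cp.lim V (hV.mono c1)
    obtain ⟨d', d2, d3⟩ := cp.lim V (hV.mono d1)
    obtain ⟨b', b2, b3⟩ := blim V (g := b) (hV.mono fun f hf => mem_closedBall_zero_iff.1 (b1 f hf))
    have t : PT V id (s' • c' - s' • d' + s' • b') := fun x =>
      (((s2.mul (c3 x)).sub (s2.mul (d3 x))).add (s2.mul (b3 x))).congr' (hV.mono fun f hf =>
        (DFunLike.congr_fun (e f hf) x).symm)
    exact ⟨_, (hD _).2 ⟨s', ge_of_tendsto s2 (hV.mono a), ⟨c', c2, d', d2, b',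
      mem_closedBall_zero_iff.2 b2, rfl⟩, le_of_tendsto ((s2.pow 2).add (t6 _ _ _ _ _ (hV.mono hM) t))
        (hV.mono k)⟩, t⟩
  have bl : ∀ b : X →L[ℝ] ℝ, ‖b‖ ≤ 1 → (1 / 2 : ℝ) • b ∈ D := fun b hb => sc 1 b _ zero_le_one
    ⟨_, ne.some_mem, _, ne.some_mem, b, mem_closedBall_zero_iff.2 hb, by simp⟩ (by norm_num)
      (by nlinarith [t5 b, norm_nonneg b])
  choose F F1 F2 using dp.mx ⟨_, bl 0 (by simp)⟩
  have H : Sup D fun x => F x x := ⟨fun x => ⟨_, F1 x, rfl⟩, fun g hg x => F2 x g hg⟩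
  generalize (fun x => F x x) = N at H
  have lo : ∀ x, 1 / 2 * ‖x‖ ≤ N x := fun x => by
    obtain ⟨b, b1, b2⟩ := exists_dual_vector'' ℝ x
    simpa [show b x = ‖x‖ from b2] using H.le _ (bl b b1) x
  have up : ∀ s f x, 0 ≤ s → In C s f → 0 < N x → 0 ≤ f x → f x ^ 2 ≤ N x ^ 2 * (s ^ 2 + f (T f)) :=
    fun s f x a i n p => by
      rcases (add_nonneg (sq_nonneg s) (t2 f)).eq_or_lt with e | e
      · simp [t3 f (by nlinarith [t2 f]), sq_nonneg, mul_nonneg]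
      have r := Real.sqrt_pos.2 e
      have := H.le _ (sc s f (√(s ^ 2 + f (T f)))⁻¹ a i (by positivity) (by
        rw [inv_pow, Real.sq_sqrt e.le, inv_mul_cancel₀ e.ne'])) x
      rw [smul_apply, smul_eq_mul, inv_mul_le_iff₀ r] at this
      nlinarith [pow_le_pow_left₀ p this 2, Real.sq_sqrt e.le]
  have un : ∀ x, 0 < N x → ∀ f ∈ D, f x = N x → ∀ g ∈ D, g x = N x → g = f := fun x hx f f1 f2 g g1 g2 => by
    obtain ⟨s, a, ⟨c, c1, d, d1, b, b1, e⟩, k⟩ := (hD f).1 f1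
    obtain ⟨s', a', ⟨c', c1', d', d1', b', b1', e'⟩, k'⟩ := (hD g).1 g1
    obtain ⟨c₀, c2, c3⟩ := cv.exists_mem_add_smul_eq c1' c1 a' a
    obtain ⟨d₀, d2, d3⟩ := cv.exists_mem_add_smul_eq d1' d1 a' a
    obtain ⟨b₀, b2, b3⟩ := (convex_closedBall _ _).exists_mem_add_smul_eq b1' b1 a' a
    have := up (s' + s) (g + f) x (by positivity) ⟨c₀, c2, d₀, d2, b₀, b2, by
      rw [c3, d3, b3, e, e']; abel⟩ hx (by rw [add_apply]; linarith)
    rw [add_apply, f2, g2, ta, show (N x + N x) ^ 2 = N x ^ 2 * 4 by ring] at this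
    replace this := le_of_mul_le_mul_left this (by positivity)
    have j := ta g ((-1 : ℝ) • f)
    rw [ts, smul_apply, smul_eq_mul, show g + (-1 : ℝ) • f = g - f by module] at j
    exact sub_eq_zero.1 (t3 _ (le_antisymm (by nlinarith [sq_nonneg (s' - s)]) (t2 _)))
  have ps : ∀ x, x ≠ 0 → 0 < N x := fun x hx => (mul_pos one_half_pos (norm_pos_iff.2 hx)).trans_le (lo x)
  have G : Nm N (1 / 2) (B + B + 1) := by
    refine ⟨fun x y => ?_, fun r x => ?_, one_half_pos, by linarith, fun x => ⟨lo x, ?_⟩, fun x hx => ?_⟩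
    · obtain ⟨f, f1, f2⟩ := H.ex (x + y)
      rw [← f2, map_add]
      exact add_le_add (H.le f f1 x) (H.le f f1 y)
    · obtain ⟨f, f1, f2⟩ := H.ex (r • x)
      obtain ⟨g, g1, g2⟩ := H.ex x
      have a1 := H.le f f1 x
      have a2 := H.le _ (ng f f1) x
      have a3 := H.le g g1 (r • x)
      have a4 := H.le _ (ng g g1) (r • x)
      simp only [map_smul, smul_eq_mul, neg_apply] at *
      rcases abs_cases r with ⟨e, k⟩ | ⟨e, k⟩ <;> rw [e] <;> apply le_antisymm <;> nlinarith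
    · obtain ⟨f, f1, f2⟩ := H.ex x
      exact f2 ▸ (le_abs_self _).trans (f.le_of_opNorm_le (hM f f1) x)
    · obtain ⟨f, f1, f2⟩ := H.ex x
      exact ⟨f, H.gat dp f1 f2 (un x (ps x hx) f f1 f2)⟩
  refine ⟨N, _, _, G, fun x hx L hL => ?_⟩
  obtain ⟨f, f1, f2⟩ := H.ex x
  obtain rfl := Nm.un hL f (H.le f f1) f2
  obtain ⟨s, a, ⟨c, c1, d, d1, b, b1, e⟩, k⟩ := (hD f).1 f1
  rw [hx] at f2
  have s0 : 0 < s := a.lt_of_ne fun j => by simp [e, ← j] at f2
  have k1 : s ^ 2 + f (T f) = 1 := le_antisymm k (by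
    simpa [hx, f2] using up s f x a ⟨c, c1, d, d1, b, b1, e⟩ (by linarith) (by linarith))
  have iN : ∀ g ∈ C, In C s (f + s • (g - c)) := fun g hg => ⟨g, hg, d, d1, b, b1, by
    rw [e, smul_sub]; abel⟩
  obtain ⟨φ, hφ⟩ := hC c c1 ⟨x - T f, fun j => by
    rw [← sub_eq_zero.1 j] at k1
    nlinarith, fun g hg => by
      have : Continuous fun t : ℝ => 2 * s * (g - c) (T f) + t * s ^ 2 * ((g - c) (T (g - c)) -
        (g - c) x ^ 2) := by fun_prop
      have := ge_of_tendsto (b := 2 * s * (g - c) x) ((this.tendsto 0).mono_left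
        (nhdsWithin_le_nhds (s := Ioi 0))) (by
          have : Continuous fun t : ℝ => 1 + t * s * (g - c) x := by fun_prop
          filter_upwards [Ioo_mem_nhdsGT one_pos, nhdsWithin_le_nhds ((this.tendsto 0).eventually
            (lt_mem_nhds (show 0 < _ by simp)))] with t ⟨t0, t7⟩ t8
          have := up s _ x a (iN _ (cv c1 hg (sub_pos.2 t7).le t0.le (by ring)))
          rw [show (1 - t) • c + t • g - c = t • (g - c) by module, smul_smul, ta, ts] at this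
          simp only [add_apply, smul_apply, smul_eq_mul, f2, hx] at this
          refine le_of_mul_le_mul_left ?_ t0
          nlinarith [this one_pos (by linarith)])
      simp only [sub_apply, map_sub] at *
      nlinarith⟩
  obtain ⟨ε, e0, hε⟩ : ∃ ε > 0, ∀ U, WO U → c ∈ U → ∃ g ∈ C ∩ U, ε ≤ |φ g - φ c| := by
    by_contra j
    push Not at j
    refine hφ (Metric.tendsto_nhds.2 fun ε e0 => ?_)
    obtain ⟨U, u1, u2, u3⟩ := j ε e0
    exact mem_of_superset (inter_mem_nhdsWithin (α := WeakDual ℝ X) C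
      (IsOpen.mem_nhds (X := WeakDual ℝ X) u1 u2)) u3
  classical
  choose g g1 g2 using fun n : ℕ => hε _ (wo_near ((Finset.range (n + 1)).image γ) c (1 / (n + 1)))
    fun x _ => by simp; positivity
  have p : PT atTop g c := fun y => tcl (fun n => hB _ (g1 n).1) (forall_mem_range.2 fun j =>
    tendsto_iff_dist_tendsto_zero.2 (squeeze_zero' (Eventually.of_forall fun _ => dist_nonneg)
      ((eventually_ge_atTop j).mono fun n hn => ((g1 n).2 _ (Finset.mem_image_of_mem γ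
        (Finset.mem_range.2 (by omega)))).le) tendsto_one_div_add_atTop_nhds_zero_nat)) y (t1 y)
  have p1 : PT atTop (fun n => f + s • (g n - c)) f := fun y => by
    simpa using (((p y).sub_const (c y)).const_mul s).const_add (f y)
  have p2 := (t6 _ _ _ _ _ (Eventually.of_forall fun n => ib s _ a (s1 s f a k) (iN _ (g1 n).1))
    p1).const_add (s ^ 2)
  generalize hu : (fun n => f + s • (g n - c)) = u at p1
  have hu : ∀ n, f + s • (g n - c) = u n := congrFun hu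
  simp only [hu, k1] at p2
  have bd : ∀ n, ∀ y ∈ u n '' {v | N v ≤ 1}, y ≤ √(s ^ 2 + u n (T (u n))) := by
    rintro n _ ⟨v, hv, rfl⟩
    refine (le_total (u n v) 0).elim (·.trans (Real.sqrt_nonneg _)) fun i => Real.le_sqrt_of_sq_le ?_
    rcases eq_or_ne v 0 with rfl | v0
    · simpa using add_nonneg (sq_nonneg s) (t2 _)
    exact (up s _ v a (hu n ▸ iN _ (g1 n).1) (ps v v0) i).trans (mul_le_of_le_one_left
      (add_nonneg (sq_nonneg s) (t2 _)) (pow_le_one₀ (G.nn v) hv))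
  choose r hr using fun n => Real.exists_isLUB (s := u n '' {v | N v ≤ 1}) ⟨_, x, hx.le, rfl⟩ ⟨_, bd n⟩
  have r1 : Tendsto r atTop (𝓝 1) := tendsto_of_tendsto_of_tendsto_of_le_of_le (f2 ▸ p1 x)
    (by simpa using p2.sqrt) (fun n => (hr n).1 ⟨x, hx.le, rfl⟩) fun n => (hr n).2 (bd n)
  obtain ⟨m, hm⟩ := eventually_atTop.1 (r1.eventually (lt_mem_nhds one_pos))
  have r2 := r1.comp (tendsto_add_atTop_nat m)
  refine ⟨fun n => (r (n + m))⁻¹ • u (n + m), fun n => ?_, by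
    simpa [f2] using (r2.inv₀ one_ne_zero).mul ((p1 x).comp (tendsto_add_atTop_nat m)), φ, fun j => ?_⟩
  · have i := hm (n + m) (by omega)
    refine ⟨forall_mem_image.2 fun v hv => (inv_mul_le_iff₀ i).2 (((hr _).1 ⟨v, hv, rfl⟩).trans_eq
      (mul_one _).symm), fun y hy => le_of_mul_le_mul_left ((mul_one _).trans_le ((hr _).2
        (forall_mem_image.2 fun v hv => (inv_mul_le_iff₀ i).1 (hy ⟨v, hv, rfl⟩)))) i⟩
  have := ge_of_tendsto' (b := s * ε) ((r2.mul j).sub_const (φ f)).abs fun n => by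
    simp only [Function.comp, map_smul, smul_eq_mul]
    rw [mul_inv_cancel_left₀ (hm _ (by omega)).ne', ← hu, map_add, add_sub_cancel_left, map_smul,
      smul_eq_mul, abs_mul, abs_of_pos s0, map_sub]
    exact mul_le_mul_of_nonneg_left (g2 _) a
  simp at this
  nlinarith [mul_pos s0 e0]

end Pool.Agent.H.MP_4cf087_an
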